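import Pool.Agent.H83.FS.Stm

/-! SLIDE and TWO for helper83. -/

set_option autoImplicit false

namespace Pool.Agent.H747.FS83

open SimpleGraph Pool.Agent.H83.FS

theorem bool_of_ne {a b c : Bool} (h1 : a ≠ b) (h2 : b ≠ c) : a = c := by
  revert a b c
  decide

theorem slide : S_slide := by
  intro V T _ _ Y col P s s' hw
  induction hw using Relation.ReflTransGen.head_induction_on with
  | refl =>
    intro σ hne
    exact absurd rfl hne
  | head hadj hrest ih =>
    rename_i s p
    obtain ⟨hsp, hPs, hPp⟩ := hadj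
    have hsp' : s ≠ p := hsp.ne
    intro σ hne
    have hss' : s' ≠ s := by
      rintro rfl
      exact hne rfl
    by_cases hps : p = s'
    · subst hps
      refine ⟨σ.trans (Equiv.swap s p), move hsp hne, ?_, ?_, ?_, ?_⟩
      · intro x hx
        rw [move_symm_apply, Equiv.swap_apply_of_ne_of_ne]
        · rintro rfl
          exact hx hPs
        · rintro rfl
          exact hx hPp
      · rw [pc_move, Equiv.swap_apply_left]
      · rw [pc_move, Equiv.swap_apply_right]
      · intro x h1 h2
        rw [pc_move, Equiv.swap_apply_of_ne_of_ne h1 h2]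
    · have hps' : s' ≠ p := fun h => hps h.symm
      by_cases hc : pc col σ p = pc col σ s
      · -- first the walk, then the move
        obtain ⟨τ, h1, h2, h3, h4, h5⟩ := ih σ (by rw [hc]; exact hne)
        have h6 : pc col τ s = pc col σ s := h5 s hsp' hss'.symm
        refine ⟨τ.trans (Equiv.swap s p), h1.trans (move hsp ?_), ?_, ?_, ?_, ?_⟩
        · rw [h6, h3]
          exact hne
        · intro x hx
          rw [move_symm_apply, Equiv.swap_apply_of_ne_of_ne, h2 x hx]
          · rintro rfl
            exact hx hPs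
          · rintro rfl
            exact hx hPp
        · rw [pc_move, Equiv.swap_apply_left, h3]
        · rw [pc_move, Equiv.swap_apply_of_ne_of_ne hss' hps', h4, hc]
        · intro x g1 g2
          by_cases hxp : x = p
          · rw [hxp, pc_move, Equiv.swap_apply_right, h6, hc]
          · rw [pc_move, Equiv.swap_apply_of_ne_of_ne g1 hxp, h5 x hxp g2]
      · -- first the move, then the walk
        have hps2 : pc col σ p = pc col σ s' := bool_of_ne hc hne
        have e1 : pc col (σ.trans (Equiv.swap s p)) p = pc col σ s := by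
          rw [pc_move, Equiv.swap_apply_right]
        have e2 : pc col (σ.trans (Equiv.swap s p)) s' = pc col σ s' := by
          rw [pc_move, Equiv.swap_apply_of_ne_of_ne hss' hps']
        have e3 : pc col (σ.trans (Equiv.swap s p)) s = pc col σ p := by
          rw [pc_move, Equiv.swap_apply_left]
        obtain ⟨τ, h1, h2, h3, h4, h5⟩ := ih (σ.trans (Equiv.swap s p)) (by
          rw [e1, e2]
          exact hne)
        refine ⟨τ, (move hsp (fun h => hc h.symm)).trans h1, ?_, ?_, ?_, ?_⟩
        · intro x hx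
          rw [h2 x hx, move_symm_apply, Equiv.swap_apply_of_ne_of_ne]
          · rintro rfl
            exact hx hPs
          · rintro rfl
            exact hx hPp
        · rw [h5 s hsp' hss'.symm, e3, hps2]
        · rw [h4, e1]
        · intro x g1 g2
          by_cases hxp : x = p
          · rw [hxp, h3, e2, hps2]
          · rw [h5 x hxp g2, pc_move, Equiv.swap_apply_of_ne_of_ne g1 hxp]

/-- only `w` has the colour `c` -/
theorem two_aux (h : S_slide) {V T : Type} [DecidableEq V] [DecidableEq T] {Y : SimpleGraph V}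
    {col : T → Bool} {P : V → Prop} {c : Bool} {σ : T ≃ V} {s s' w w' : V} (hs : Cn Y P s w)
    (hs' : Cn Y P s' w') (hss : s ≠ s') (hww : w ≠ w') (h1 : pc col σ s = c)
    (h2 : pc col σ s' = c) (h3 : pc col σ w = c) (h4 : pc col σ w' ≠ c) :
    ∃ τ : T ≃ V, Rch Y col σ τ ∧ (∀ x, ¬ P x → τ.symm x = σ.symm x) ∧
      pc col τ w = c ∧ pc col τ w' = c := by
  by_cases hsw : s' = w
  · have hsw' : w ≠ s := by
      rw [← hsw]
      exact hss.symm
    have hwalk : Cn Y P s w' := hs.trans (by rw [← hsw]; exact hs')
    obtain ⟨τ, g1, g2, g3, g4, g5⟩ := h V T Y col P s w' hwalk σ (by rw [h1]; exact h4.symm)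
    exact ⟨τ, g1, g2, by rw [g5 w hsw' hww, h3], by rw [g4, h1]⟩
  · obtain ⟨τ, g1, g2, g3, g4, g5⟩ := h V T Y col P s' w' hs' σ (by rw [h2]; exact h4.symm)
    exact ⟨τ, g1, g2, by rw [g5 w (fun e => hsw e.symm) hww, h3], by rw [g4, h2]⟩

theorem two (h : S_slide) : S_two := by
  intro V T _ _ Y col P c σ s s' w w' hs hs' hss hww h1 h2
  by_cases h3 : pc col σ w = c
  · by_cases h4 : pc col σ w' = c
    · exact ⟨σ, Rch.refl Y col σ, fun _ _ => rfl, h3, h4⟩
    · exact two_aux h hs hs' hss hww h1 h2 h3 h4
  · by_cases h4 : pc col σ w' = c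
    · obtain ⟨τ, g1, g2, g3, g4⟩ := two_aux h hs' hs hss.symm hww.symm h2 h1 h4 h3
      exact ⟨τ, g1, g2, g4, g3⟩
    · obtain ⟨τ₁, g1, g2, g3, g4, g5⟩ := h V T Y col P s w hs σ (by
        rw [h1]
        exact fun e => h3 e.symm)
      have e1 : pc col τ₁ s' = c := by
        rw [g5 s' hss.symm (by rintro rfl; exact h3 h2), h2]
      have e2 : pc col τ₁ w' = pc col σ w' :=
        g5 w' (by rintro rfl; exact h4 h1) hww.symm
      have hsw : w ≠ s' := by
        rintro rfl
        exact h3 h2
      obtain ⟨τ, k1, k2, k3, k4, k5⟩ := h V T Y col P s' w' hs' τ₁ (by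
        rw [e1, e2]
        exact fun e => h4 e.symm)
      refine ⟨τ, g1.trans k1, fun x hx => by rw [k2 x hx, g2 x hx], ?_, ?_⟩
      · rw [k5 w hsw hww, g4, h1]
      · rw [k4, e1]

end Pool.Agent.H747.FS83
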